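import Mathlib

/-!
Row and column balance is not an invariant of the equivalence class of a Butson matrix.
We construct a `BH(4, 4096)` whose equivalence class contains two normalised matrices, one
row and column balanced, the other one not row balanced.
-/

set_option autoImplicit false

namespace Pool.Agent.Results.MP_812af1_co.BalanceNotInvariant

open Finset

/-! ### The definitions of the problem -/

/-- `H` is a Butson matrix `BH(m,n)`: all entries are `m`-th roots of unity and `H H* = n I`. -/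
def IsButson (m : ℕ) {n : ℕ} (H : Matrix (Fin n) (Fin n) ℂ) : Prop :=
  (∀ i j, H i j ^ m = 1) ∧ H * H.conjTranspose = (n : ℂ) • (1 : Matrix (Fin n) (Fin n) ℂ)

/-- One operation: permute the rows, permute the columns, multiply one row or one column by an
`m`-th root of unity. -/
inductive Step (m : ℕ) {n : ℕ} :
    Matrix (Fin n) (Fin n) ℂ → Matrix (Fin n) (Fin n) ℂ → Prop
  | permRows (H : Matrix (Fin n) (Fin n) ℂ) (σ : Equiv.Perm (Fin n)) :
      Step m H (fun i j => H (σ i) j)
  | permCols (H : Matrix (Fin n) (Fin n) ℂ) (σ : Equiv.Perm (Fin n)) :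
      Step m H (fun i j => H i (σ j))
  | mulRow (H : Matrix (Fin n) (Fin n) ℂ) (i₀ : Fin n) (z : ℂ) (hz : z ^ m = 1) :
      Step m H (fun i j => if i = i₀ then z * H i j else H i j)
  | mulCol (H : Matrix (Fin n) (Fin n) ℂ) (j₀ : Fin n) (z : ℂ) (hz : z ^ m = 1) :
      Step m H (fun i j => if j = j₀ then z * H i j else H i j)

/-- Two matrices are equivalent if a finite sequence of operations leads from one to the other. -/
def Equivalent (m : ℕ) {n : ℕ} (H H' : Matrix (Fin n) (Fin n) ℂ) : Prop :=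
  Relation.ReflTransGen (Step m) H H'

/-- All entries of the first row and of the first column are `1`. -/
def Normalised {n : ℕ} (H : Matrix (Fin n) (Fin n) ℂ) : Prop :=
  ∀ i j : Fin n, (i.val = 0 ∨ j.val = 0) → H i j = 1

/-- Every `m`-th root of unity occurs the same number of times in every row but the first. -/
def RowBalanced (m : ℕ) {n : ℕ} (H : Matrix (Fin n) (Fin n) ℂ) : Prop :=
  ∀ i : Fin n, i.val ≠ 0 → ∀ z w : ℂ, z ^ m = 1 → w ^ m = 1 →
    Nat.card {j : Fin n // H i j = z} = Nat.card {j : Fin n // H i j = w}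

/-- Every `m`-th root of unity occurs the same number of times in every column but the first. -/
def ColBalanced (m : ℕ) {n : ℕ} (H : Matrix (Fin n) (Fin n) ℂ) : Prop :=
  ∀ j : Fin n, j.val ≠ 0 → ∀ z w : ℂ, z ^ m = 1 → w ^ m = 1 →
    Nat.card {i : Fin n // H i j = z} = Nat.card {i : Fin n // H i j = w}

/-! ### Counting in `ZMod 4` -/

section Count

variable {α β : Type} [Fintype α] [Fintype β]

/-- Number of times `f` takes the value `k`. -/
def cnt (f : α → ZMod 4) (k : ZMod 4) : ℕ := ∑ j, if f j = k then 1 else 0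

/-- The value distribution of `f` is invariant under translation by `s`. -/
def Bal (s : ZMod 4) (f : α → ZMod 4) : Prop := ∀ k, cnt f k = cnt f (k + s)

lemma bal_prod (s : ZMod 4) (f : β × α → ZMod 4) (h : ∀ y, Bal s (fun x => f (y, x))) :
    Bal s f := by
  intro k
  unfold cnt
  rw [Fintype.sum_prod_type, Fintype.sum_prod_type]
  exact Finset.sum_congr rfl (fun y _ => h y k)

lemma bal_prod' (s : ZMod 4) (f : β × α → ZMod 4) (h : ∀ x, Bal s (fun y => f (y, x))) :
    Bal s f := by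
  intro k
  unfold cnt
  rw [Fintype.sum_prod_type_right, Fintype.sum_prod_type_right]
  exact Finset.sum_congr rfl (fun y _ => h y k)

lemma cnt_fst (g : β → ZMod 4) (k : ZMod 4) :
    cnt (fun p : β × α => g p.1) k = Fintype.card α * cnt g k := by
  unfold cnt
  rw [Fintype.sum_prod_type, Finset.mul_sum]
  refine Finset.sum_congr rfl (fun y _ => ?_)
  by_cases h : g y = k <;> simp [h]

lemma cnt_snd (g : α → ZMod 4) (k : ZMod 4) :
    cnt (fun p : β × α => g p.2) k = Fintype.card β * cnt g k := by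
  unfold cnt
  rw [Fintype.sum_prod_type]
  simp

lemma bal_fst (s : ZMod 4) (g : β → ZMod 4) (h : Bal s g) :
    Bal s (fun p : β × α => g p.1) := by
  intro k; rw [cnt_fst, cnt_fst, h k]

lemma bal_snd (s : ZMod 4) (g : α → ZMod 4) (h : Bal s g) :
    Bal s (fun p : β × α => g p.2) := by
  intro k; rw [cnt_snd, cnt_snd, h k]

lemma cnt_add (f : α → ZMod 4) (c k : ZMod 4) : cnt (fun j => f j + c) k = cnt f (k - c) := by
  unfold cnt
  refine Finset.sum_congr rfl (fun j _ => ?_)
  simp only [eq_sub_iff_add_eq]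

lemma bal_add (s c : ZMod 4) (f : α → ZMod 4) (h : Bal s f) : Bal s (fun j => f j + c) := by
  intro k
  rw [cnt_add, cnt_add, h (k - c)]
  congr 1; ring

lemma bal_two (f : α → ZMod 4) (h : Bal 1 f) : Bal 2 f := by
  intro k
  rw [h k, h (k + 1)]
  congr 1
  rw [add_assoc]; rfl

lemma bal_congr (s : ZMod 4) (f g : α → ZMod 4) (h : ∀ j, f j = g j) (hf : Bal s f) : Bal s g := by
  have : f = g := funext h
  rw [← this]; exact hf

/-- The exponent matrix `h` has its rows `i`, `i'` in balance with respect to the shift `s`. -/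
def RB (s : ZMod 4) (h : α → α → ZMod 4) (i i' : α) : Prop := Bal s (fun j => h i j - h i' j)

/-- Same for columns. -/
def CB (s : ZMod 4) (h : α → α → ZMod 4) (j j' : α) : Prop := Bal s (fun i => h i j - h i j')

/-- The product of two families of exponent matrices. -/
def star (U : α → β → β → ZMod 4) (V : β → α → α → ZMod 4) (X Y : β × α) : ZMod 4 :=
  U X.2 X.1 Y.1 + V Y.1 X.2 Y.2

variable (U : α → β → β → ZMod 4) (V : β → α → α → ZMod 4)

lemma star_RB_snd (s : ZMod 4) (X X' : β × α) (h : ∀ y, RB s (V y) X.2 X'.2) :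
    RB s (star U V) X X' := by
  refine bal_prod s _ (fun y => ?_)
  refine bal_congr s _ _ (fun x => ?_) (bal_add s (U X.2 X.1 y - U X'.2 X'.1 y) _ (h y))
  simp only [star]; ring

lemma star_RB_fst (s : ZMod 4) (X X' : β × α) (h2 : X.2 = X'.2) (h : RB s (U X.2) X.1 X'.1) :
    RB s (star U V) X X' := by
  have h' : Bal s (fun p : β × α => U X.2 X.1 p.1 - U X.2 X'.1 p.1) := bal_fst s _ h
  refine bal_congr s _ _ (fun p => ?_) h'
  simp only [star, ← h2]; ring

lemma star_CB_fst (s : ZMod 4) (Y Y' : β × α) (h : ∀ x, CB s (U x) Y.1 Y'.1) :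
    CB s (star U V) Y Y' := by
  refine bal_prod' s _ (fun x => ?_)
  refine bal_congr s _ _ (fun y => ?_) (bal_add s (V Y.1 x Y.2 - V Y'.1 x Y'.2) _ (h x))
  simp only [star]; ring

lemma star_CB_snd (s : ZMod 4) (Y Y' : β × α) (h1 : Y.1 = Y'.1) (h : CB s (V Y.1) Y.2 Y'.2) :
    CB s (star U V) Y Y' := by
  have h' : Bal s (fun p : β × α => V Y.1 p.2 Y.2 - V Y.1 p.2 Y'.2) := bal_snd s _ h
  refine bal_congr s _ _ (fun p => ?_) h'
  simp only [star, ← h1]; ring

end Count

/-! ### The building blocks of order 16 -/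

/-- A bent function `F_2^4 → ZMod 4` (multiplication of `F_4`). -/
def f0 : Fin 16 → ZMod 4 := ![0, 0, 0, 0, 0, 1, 2, 3, 0, 2, 3, 1, 0, 3, 1, 2]

/-- Exponents of a generalised Hadamard matrix of order 16 over the cyclic group of order 4. -/
def G (x y : Fin 16) : ZMod 4 := f0 (x ^^^ y)

/-- Exponents of the Sylvester matrix of order 16. -/
def S (x y : Fin 16) : ZMod 4 :=
  if ((x &&& y).val.testBit 0 ^^ (x &&& y).val.testBit 1 ^^ (x &&& y).val.testBit 2 ^^
    (x &&& y).val.testBit 3) then 2 else 0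

instance decBal (s : ZMod 4) (f : Fin 16 → ZMod 4) : Decidable (Bal s f) := by
  unfold Bal; infer_instance

instance decRB (s : ZMod 4) (h : Fin 16 → Fin 16 → ZMod 4) (i i' : Fin 16) :
    Decidable (RB s h i i') := by
  unfold RB; infer_instance

lemma G_RB : ∀ i i' : Fin 16, i ≠ i' → RB 1 G i i' := by decide +kernel

lemma S_RB : ∀ i i' : Fin 16, i ≠ i' → RB 2 S i i' := by decide +kernel

lemma G_symm : ∀ x y : Fin 16, G x y = G y x := by decide +kernel

lemma G_CB (j j' : Fin 16) (h : j ≠ j') : CB 1 G j j' := by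
  refine bal_congr 1 _ _ (fun i => ?_) (G_RB j j' h)
  rw [G_symm i j, G_symm i j']

/-! ### The large matrix -/

/-- Auxiliary matrix of order 256: all pairs of rows and of columns are in balance. -/
def G2 : (Fin 16 × Fin 16) → (Fin 16 × Fin 16) → ZMod 4 := star (fun _ => G) (fun _ => G)

/-- Auxiliary matrix of order 256: the first column is in balance with all others, but not every
pair of rows is in balance. -/
def N : (Fin 16 × Fin 16) → (Fin 16 × Fin 16) → ZMod 4 :=
  star (fun _ => G) (fun y => if y = 0 then G else S)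

/-- Index set of the large matrix (4096 elements). -/
abbrev Ix : Type := (Fin 16 × Fin 16) × Fin 16

/-- Exponents of the large matrix. -/
def M : Ix → Ix → ZMod 4 := star (fun x => if x = 0 then G2 else N) (fun _ => G)

lemma RB_two {α : Type} [Fintype α] (h : α → α → ZMod 4) (i i' : α) (hh : RB 1 h i i') :
    RB 2 h i i' := bal_two _ hh

lemma G2_RB (X X' : Fin 16 × Fin 16) (h : X ≠ X') : RB 1 G2 X X' := by
  by_cases h2 : X.2 = X'.2
  · refine star_RB_fst _ _ 1 X X' h2 (G_RB _ _ (fun h1 => h (Prod.ext h1 h2)))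
  · exact star_RB_snd _ _ 1 X X' (fun _ => G_RB _ _ h2)

lemma N_RB (X X' : Fin 16 × Fin 16) (h : X ≠ X') : RB 2 N X X' := by
  by_cases h2 : X.2 = X'.2
  · refine star_RB_fst _ _ 2 X X' h2 (RB_two _ _ _ (G_RB _ _ (fun h1 => h (Prod.ext h1 h2))))
  · refine star_RB_snd _ _ 2 X X' (fun y => ?_)
    by_cases hy : y = 0
    · simp only [hy, if_true]; exact RB_two _ _ _ (G_RB _ _ h2)
    · simp only [hy, if_false]; exact S_RB _ _ h2

lemma G2_CB (Y : Fin 16 × Fin 16) (h : Y ≠ 0) : CB 1 G2 Y 0 := by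
  by_cases h1 : Y.1 = 0
  · exact star_CB_snd _ _ 1 Y 0 h1 (G_CB _ _ (fun h2 => h (Prod.ext h1 h2)))
  · exact star_CB_fst _ _ 1 Y 0 (fun _ => G_CB _ _ h1)

lemma N_CB (Y : Fin 16 × Fin 16) (h : Y ≠ 0) : CB 1 N Y 0 := by
  by_cases h1 : Y.1 = 0
  · refine star_CB_snd _ _ 1 Y 0 h1 ?_
    simp only [h1, if_true]
    exact G_CB _ _ (fun h2 => h (Prod.ext h1 h2))
  · exact star_CB_fst _ _ 1 Y 0 (fun _ => G_CB _ _ h1)

/-- The large matrix satisfies the Butson condition. -/
lemma M_RB (X X' : Ix) (h : X ≠ X') : RB 2 M X X' := by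
  by_cases h2 : X.2 = X'.2
  · refine star_RB_fst _ _ 2 X X' h2 ?_
    have h1 : X.1 ≠ X'.1 := fun h1 => h (Prod.ext h1 h2)
    by_cases hx : X.2 = 0
    · simp only [hx, if_true]; exact RB_two _ _ _ (G2_RB _ _ h1)
    · simp only [hx, if_false]; exact N_RB _ _ h1
  · exact star_RB_snd _ _ 2 X X' (fun _ => RB_two _ _ _ (G_RB _ _ h2))

/-- Row `0` of the large matrix is in balance with all others. -/
lemma M_row (X : Ix) (h : X ≠ 0) : RB 1 M X 0 := by
  by_cases h2 : X.2 = 0
  · refine star_RB_fst _ _ 1 X 0 h2 ?_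
    have h1 : X.1 ≠ 0 := fun h1 => h (Prod.ext h1 h2)
    simp only [h2, if_true]
    exact G2_RB _ _ h1
  · exact star_RB_snd _ _ 1 X 0 (fun _ => G_RB _ _ h2)

/-- Column `0` of the large matrix is in balance with all others. -/
lemma M_col (Y : Ix) (h : Y ≠ 0) : CB 1 M Y 0 := by
  by_cases h1 : Y.1 = 0
  · exact star_CB_snd _ _ 1 Y 0 h1 (G_CB _ _ (fun h2 => h (Prod.ext h1 h2)))
  · refine star_CB_fst _ _ 1 Y 0 (fun x => ?_)
    by_cases hx : x = 0
    · simp only [hx, if_true]; exact G2_CB _ h1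
    · simp only [hx, if_false]; exact N_CB _ h1

/-- Two rows which are not in balance. -/
def p : Ix := ((0, 0), 1)
/-- Two rows which are not in balance. -/
def q : Ix := ((0, 1), 1)

lemma pq_ne : q ≠ p := by decide

lemma N_cnt : cnt (fun Y => N (0, 1) Y - N (0, 0) Y) 0 ≠
    cnt (fun Y => N (0, 1) Y - N (0, 0) Y) 1 := by decide +kernel

lemma M_eq (X Y : Ix) (h : X.2 ≠ 0) : M X Y = N X.1 Y.1 + G X.2 Y.2 := by
  change (if X.2 = 0 then G2 else N) X.1 Y.1 + G X.2 Y.2 = _
  rw [if_neg h]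

lemma M_not_bal : ¬ RB 1 M q p := by
  intro h
  have h0 : cnt (fun Y => M q Y - M p Y) 0 = cnt (fun Y => M q Y - M p Y) (0 + 1) := h 0
  have e : (fun Y : Ix => M q Y - M p Y) = (fun Y : Ix => N (0, 1) Y.1 - N (0, 0) Y.1) := by
    funext Y
    rw [M_eq q Y (by decide), M_eq p Y (by decide)]
    change N (0, 1) Y.1 + G 1 Y.2 - (N (0, 0) Y.1 + G 1 Y.2) = _
    ring
  have e0 := cnt_fst (α := Fin 16) (fun Y => N (0, 1) Y - N (0, 0) Y) 0
  have e1 := cnt_fst (α := Fin 16) (fun Y => N (0, 1) Y - N (0, 0) Y) 1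
  rw [e, zero_add, e0, e1] at h0
  have hpos : 0 < Fintype.card (Fin 16) := Fintype.card_pos
  exact N_cnt (Nat.eq_of_mul_eq_mul_left hpos h0)

/-! ### From exponents to complex matrices -/

/-- The fourth root of unity with exponent `a`. -/
noncomputable def ζ (a : ZMod 4) : ℂ := Complex.I ^ a.val

lemma ζ_add (a b : ZMod 4) : ζ (a + b) = ζ a * ζ b := by
  unfold ζ
  rw [ZMod.val_add, ← pow_add]
  exact (pow_eq_pow_mod _ Complex.I_pow_four).symm

lemma ζ_zero : ζ 0 = 1 := by simp [ζ]

lemma ζ_pow (a : ZMod 4) : ζ a ^ 4 = 1 := by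
  unfold ζ
  rw [← pow_mul, mul_comm, pow_mul, Complex.I_pow_four, one_pow]

lemma ζ_mul_conj (a : ZMod 4) : ζ a * (starRingEnd ℂ) (ζ a) = 1 := by
  unfold ζ
  rw [Complex.mul_conj, map_pow, Complex.normSq_I]
  simp

lemma ζ_sub (a b : ZMod 4) : ζ a * (starRingEnd ℂ) (ζ b) = ζ (a - b) := by
  have h : ζ a = ζ (a - b) * ζ b := by rw [← ζ_add]; congr 1; ring
  rw [h, mul_assoc, ζ_mul_conj, mul_one]

lemma ζ_one : ζ 1 = Complex.I := by
  unfold ζ
  rw [show (1 : ZMod 4).val = 1 from rfl, pow_one]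

lemma ζ_two : ζ 2 = -1 := by
  unfold ζ
  rw [show (2 : ZMod 4).val = 2 from rfl, Complex.I_sq]

lemma ζ_three : ζ 3 = -Complex.I := by
  unfold ζ
  rw [show (3 : ZMod 4).val = 3 from rfl, pow_succ, Complex.I_sq]; ring

lemma ζ_eq_one (a : ZMod 4) (h : ζ a = 1) : a = 0 := by
  have hI : Complex.I ≠ 1 := by
    intro h; have := congrArg Complex.re h; simp at this
  have hI' : -Complex.I ≠ 1 := by
    intro h; have := congrArg Complex.re h; simp at this
  have hm : (-1 : ℂ) ≠ 1 := by norm_num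
  have h4 : ∀ a : ZMod 4, a = 0 ∨ a = 1 ∨ a = 2 ∨ a = 3 := by decide
  rcases h4 a with rfl | rfl | rfl | rfl
  · rfl
  · exact absurd (ζ_one ▸ h) hI
  · exact absurd (ζ_two ▸ h) hm
  · exact absurd (ζ_three ▸ h) hI'

lemma ζ_inj (a b : ZMod 4) (h : ζ a = ζ b) : a = b := by
  have h1 : ζ (a - b) = 1 := by rw [← ζ_sub, h, ζ_mul_conj]
  exact sub_eq_zero.1 (ζ_eq_one _ h1)

lemma ζ_surj (z : ℂ) (hz : z ^ 4 = 1) : ∃ a, z = ζ a := by
  have h : (z - 1) * ((z + 1) * ((z - Complex.I) * (z + Complex.I))) = 0 := by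
    have : (z - Complex.I) * (z + Complex.I) = z ^ 2 + 1 := by
      ring_nf; rw [Complex.I_sq]; ring
    rw [this]
    linear_combination hz
  rcases mul_eq_zero.1 h with h | h
  · exact ⟨0, by rw [ζ_zero]; exact sub_eq_zero.1 h⟩
  rcases mul_eq_zero.1 h with h | h
  · exact ⟨2, by rw [ζ_two]; exact eq_neg_of_add_eq_zero_left h⟩
  rcases mul_eq_zero.1 h with h | h
  · exact ⟨1, by rw [ζ_one]; exact sub_eq_zero.1 h⟩
  · exact ⟨3, by rw [ζ_three]; exact eq_neg_of_add_eq_zero_left h⟩

lemma sum_ζ {α : Type} [Fintype α] (f : α → ZMod 4) (h : Bal 2 f) : ∑ j, ζ (f j) = 0 := by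
  have h1 : ∑ j, ζ (f j) = ∑ k : ZMod 4, (cnt f k : ℂ) * ζ k := by
    have : ∀ k : ZMod 4, (cnt f k : ℂ) * ζ k = ∑ j, if f j = k then ζ k else 0 := by
      intro k
      unfold cnt
      push_cast
      rw [Finset.sum_mul]
      refine Finset.sum_congr rfl (fun j _ => ?_)
      split_ifs <;> simp
    simp_rw [this]
    rw [Finset.sum_comm]
    refine Finset.sum_congr rfl (fun j _ => ?_)
    simp
  have h2 : ∑ k : ZMod 4, (cnt f k : ℂ) * ζ k = ∑ k : ZMod 4, (cnt f (k + 2) : ℂ) * ζ (k + 2) :=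
    (Equiv.sum_comp (Equiv.addRight (2 : ZMod 4)) (fun k => (cnt f k : ℂ) * ζ k)).symm
  have h3 : ∑ k : ZMod 4, (cnt f (k + 2) : ℂ) * ζ (k + 2) =
      - ∑ k : ZMod 4, (cnt f k : ℂ) * ζ k := by
    rw [← Finset.sum_neg_distrib]
    refine Finset.sum_congr rfl (fun k _ => ?_)
    rw [← h k, ζ_add, ζ_two]; ring
  rw [h1]
  have h4 := h2.trans h3
  exact self_eq_neg.1 h4

lemma bal_one_const {α : Type} [Fintype α] (f : α → ZMod 4) (h : Bal 1 f) (k k' : ZMod 4) :
    cnt f k = cnt f k' := by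
  have h4 : ∀ a : ZMod 4, a = 0 ∨ a = 1 ∨ a = 2 ∨ a = 3 := by decide
  have h0 : cnt f 0 = cnt f 1 := h 0
  have h1 : cnt f 1 = cnt f 2 := h 1
  have h2 : cnt f 2 = cnt f 3 := h 2
  rcases h4 k with rfl | rfl | rfl | rfl <;> rcases h4 k' with rfl | rfl | rfl | rfl <;> omega

/-- Number of indices. -/
def n : ℕ := Fintype.card Ix

lemma n_eq : n = 4096 := by simp [n]

/-- The first index. -/
def z0 : Fin n := ⟨0, by rw [n_eq]; norm_num⟩

/-- An enumeration of the index set. -/
noncomputable def e0 : Fin n ≃ Ix := (Fintype.equivFin Ix).symm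

/-- An enumeration of the index set beginning with `0`. -/
noncomputable def e : Fin n ≃ Ix := e0.trans (Equiv.swap (e0 z0) 0)

lemma e_z0 : e z0 = 0 := by simp [e]

lemma e_ne {i : Fin n} (h : i.val ≠ 0) : e i ≠ 0 := by
  intro h'
  rw [← e_z0] at h'
  have := e.injective h'
  rw [this] at h
  exact h rfl

lemma card_eq (f : Ix → ZMod 4) (k : ZMod 4) (g : Fin n → ℂ) (hg : ∀ j, g j = ζ (f (e j))) :
    Nat.card {j : Fin n // g j = ζ k} = cnt f k := by
  classical
  rw [Nat.card_eq_fintype_card, Fintype.card_subtype, Finset.card_filter]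
  unfold cnt
  rw [← Equiv.sum_comp e]
  refine Finset.sum_congr rfl (fun j _ => ?_)
  rw [hg]
  by_cases h : f (e j) = k
  · simp [h]
  · have : ζ (f (e j)) ≠ ζ k := fun h' => h (ζ_inj _ _ h')
    simp [h, this]

/-- Exponents of the first normalised matrix. -/
def h1 (X Y : Ix) : ZMod 4 := M X Y - M 0 Y + (M 0 0 - M X 0)

/-- Exponents of the second normalised matrix (up to a permutation of the rows). -/
def h2 (X Y : Ix) : ZMod 4 := M X Y - M p Y + (M p 0 - M X 0)

/-- The first normalised matrix. -/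
noncomputable def H1 : Matrix (Fin n) (Fin n) ℂ := fun i j => ζ (h1 (e i) (e j))

/-- The permutation bringing row `p` to the front. -/
noncomputable def σ : Equiv.Perm (Fin n) := Equiv.swap z0 (e.symm p)

lemma e_σ : e (σ z0) = p := by simp [σ]

/-- The second normalised matrix. -/
noncomputable def H2 : Matrix (Fin n) (Fin n) ℂ := fun i j => ζ (h2 (e (σ i)) (e j))

lemma H1_butson : IsButson 4 H1 := by
  refine ⟨fun i j => ζ_pow _, ?_⟩
  ext i i'
  rw [Matrix.mul_apply, Matrix.smul_apply, smul_eq_mul]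
  have hterm : ∀ j, H1 i j * H1.conjTranspose j i' = ζ (h1 (e i) (e j) - h1 (e i') (e j)) := by
    intro j
    rw [Matrix.conjTranspose_apply]
    exact ζ_sub _ _
  simp_rw [hterm]
  rw [Equiv.sum_comp e (fun Y => ζ (h1 (e i) Y - h1 (e i') Y))]
  by_cases hi : i = i'
  · subst hi
    simp [ζ_zero, n]
  · rw [Matrix.one_apply_ne hi, mul_zero]
    refine sum_ζ _ ?_
    have hne : e i ≠ e i' := fun h => hi (e.injective h)
    refine bal_congr 2 _ _ (fun Y => ?_) (bal_add 2 (M (e i') 0 - M (e i) 0) _ (M_RB _ _ hne))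
    simp only [h1]; ring

lemma val_zero {i : Fin n} (h : i.val = 0) : i = z0 := Fin.ext h

lemma H1_norm : Normalised H1 := by
  intro i j hij
  rcases hij with h | h
  · rw [val_zero h]
    simp [H1, e_z0, h1, ζ_zero]
  · rw [val_zero h]
    simp [H1, e_z0, h1, ζ_zero]

lemma H2_norm : Normalised H2 := by
  intro i j hij
  rcases hij with h | h
  · rw [val_zero h]
    simp [H2, e_σ, h2, ζ_zero]
  · rw [val_zero h]
    simp [H2, e_z0, h2, ζ_zero]

lemma H1_row : RowBalanced 4 H1 := by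
  intro i hi z w hz hw
  obtain ⟨k, rfl⟩ := ζ_surj z hz
  obtain ⟨k', rfl⟩ := ζ_surj w hw
  rw [card_eq (fun Y => h1 (e i) Y) k (fun j => H1 i j) (fun j => rfl),
    card_eq (fun Y => h1 (e i) Y) k' (fun j => H1 i j) (fun j => rfl)]
  refine bal_one_const _ ?_ k k'
  exact bal_add 1 _ _ (M_row _ (e_ne hi))

lemma H1_col : ColBalanced 4 H1 := by
  intro j hj z w hz hw
  obtain ⟨k, rfl⟩ := ζ_surj z hz
  obtain ⟨k', rfl⟩ := ζ_surj w hw
  rw [card_eq (fun X => h1 X (e j)) k (fun i => H1 i j) (fun j => rfl),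
    card_eq (fun X => h1 X (e j)) k' (fun i => H1 i j) (fun j => rfl)]
  refine bal_one_const _ ?_ k k'
  refine bal_congr 1 _ _ (fun X => ?_) (bal_add 1 (M 0 0 - M 0 (e j)) _ (M_col _ (e_ne hj)))
  simp only [h1]; ring

lemma H2_not_row : ¬ RowBalanced 4 H2 := by
  intro h
  set i : Fin n := σ.symm (e.symm q) with hi
  have hei : e (σ i) = q := by simp [hi]
  have hi0 : i.val ≠ 0 := by
    intro h0
    have h1 := e_σ
    rw [← val_zero h0, hei] at h1
    exact pq_ne h1
  apply M_not_bal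
  have hb : Bal 1 (fun Y => h2 q Y) := by
    intro k
    have := h i hi0 (ζ k) (ζ (k + 1)) (ζ_pow _) (ζ_pow _)
    rw [card_eq (fun Y => h2 q Y) k (fun j => H2 i j) (fun j => by rw [H2, hei]),
      card_eq (fun Y => h2 q Y) (k + 1) (fun j => H2 i j) (fun j => by rw [H2, hei])] at this
    exact this
  refine bal_congr 1 _ _ (fun Y => ?_) (bal_add 1 (M q 0 - M p 0) _ hb)
  simp only [h2]; ring

/-- Multiplying all columns by roots of unity. -/
lemma equiv_mulCols (m : ℕ) {n : ℕ} (H : Matrix (Fin n) (Fin n) ℂ) (c : Fin n → ℂ)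
    (hc : ∀ j, c j ^ m = 1) (T : Finset (Fin n)) :
    Equivalent m H (fun i j => if j ∈ T then c j * H i j else H i j) := by
  classical
  induction T using Finset.induction_on with
  | empty =>
    simp only [Finset.notMem_empty, if_false]
    exact Relation.ReflTransGen.refl
  | insert a T ha ih =>
    refine Relation.ReflTransGen.tail ih ?_
    have hst := Step.mulCol (m := m) (fun i j => if j ∈ T then c j * H i j else H i j) a (c a) (hc a)
    have heq : (fun i j => if j ∈ insert a T then c j * H i j else H i j) =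
        (fun i j => if j = a then c a * (if j ∈ T then c j * H i j else H i j)
          else (if j ∈ T then c j * H i j else H i j)) := by
      funext i j
      by_cases hj : j = a
      · subst hj; simp [ha]
      · simp [hj]
    rw [heq]
    exact hst

lemma H12 : Equivalent 4 H1 H2 := by
  refine Relation.ReflTransGen.head (Step.permRows H1 σ) ?_
  have h := equiv_mulCols 4 (fun i j => H1 (σ i) j)
    (fun j => ζ (M 0 (e j) - M p (e j) + (M p 0 - M 0 0))) (fun j => ζ_pow _) Finset.univ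
  have heq : H2 = (fun i j => if j ∈ (Finset.univ : Finset (Fin n)) then
      ζ (M 0 (e j) - M p (e j) + (M p 0 - M 0 0)) * H1 (σ i) j else H1 (σ i) j) := by
    funext i j
    simp only [Finset.mem_univ, if_true]
    rw [H1, H2, ← ζ_add]
    congr 1
    simp only [h1, h2]; ring
  rw [heq]
  exact h

/-- Row and column balance of a normalised matrix is not an invariant of the equivalence class of
a Butson matrix. -/
theorem result : ¬ ∀ (m n : ℕ), 1 ≤ m → 2 ≤ n → ∀ H : Matrix (Fin n) (Fin n) ℂ, IsButson m H →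
    (∀ N, Equivalent m H N → Normalised N → RowBalanced m N ∧ ColBalanced m N) ∨
    (∀ N, Equivalent m H N → Normalised N → ¬ (RowBalanced m N ∧ ColBalanced m N)) := by
  intro h
  rcases h 4 n (by norm_num) (by rw [n_eq]; norm_num) H1 H1_butson with h | h
  · exact H2_not_row (h H2 H12 H2_norm).1
  · exact h H1 Relation.ReflTransGen.refl H1_norm ⟨H1_row, H1_col⟩

end Pool.Agent.Results.MP_812af1_co.BalanceNotInvariant
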